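import Mathlib

set_option autoImplicit false

/-!
# Amitsur's argument
-/

open Polynomial Cardinal

namespace Pool.Agent.R911.Cv

universe w v

variable {F : Type w} [Field F] {A : Type v} [Ring A] [Algebra F A]

/-- An element `x` of an algebra of dimension smaller than the cardinality of the field is algebraic
if all `q(x)` with `q(0) ≠ 0` are invertible. -/
lemma isAlgebraic_of_units (x : A) (hx : ∀ q : F[X], q.coeff 0 ≠ 0 → IsUnit (aeval x q))
    (hr : Cardinal.lift.{w} (Module.rank F A) < Cardinal.lift.{v} #F) : IsAlgebraic F x := by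
  classical
  by_contra h
  have hinj : ∀ p : F[X], aeval x p = 0 → p = 0 := by
    intro p hp
    by_contra h0
    exact h ⟨p, h0, hp⟩
  have hunit : ∀ a : F, IsUnit (aeval x (1 - C a * X)) := fun a => hx _ (by simp)
  let u : F → A := fun a => ↑((hunit a).unit⁻¹)
  have hu : ∀ a, u a * aeval x (1 - C a * X) = 1 := fun a => (hunit a).val_inv_mul
  have hli : LinearIndependent F u := by
    rw [linearIndependent_iff']
    intro s c hc
    have key : ∑ a ∈ s, C (c a) * ∏ b ∈ s.erase a, (1 - C b * X) = 0 := by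
      apply hinj
      rw [map_sum]
      have h1 : ∀ a ∈ s, aeval x (C (c a) * ∏ b ∈ s.erase a, (1 - C b * X)) =
          (c a • u a) * aeval x (∏ b ∈ s, (1 - C b * X)) := by
        intro a ha
        rw [← Finset.mul_prod_erase s (fun b => (1 - C b * X)) ha, map_mul, map_mul, smul_mul_assoc,
          ← mul_assoc, hu a, one_mul, aeval_C, ← Algebra.smul_def]
      rw [Finset.sum_congr rfl h1, ← Finset.sum_mul, hc, zero_mul]
    have h2 : ∀ a ∈ s, a ≠ 0 → c a = 0 := by
      intro a ha ha0
      have h3 := congrArg (eval a⁻¹) key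
      rw [eval_finsetSum, eval_zero, Finset.sum_eq_single a] at h3
      · rw [eval_mul, eval_C, eval_prod] at h3
        rcases mul_eq_zero.1 h3 with h4 | h4
        · exact h4
        · rw [Finset.prod_eq_zero_iff] at h4
          obtain ⟨b, hb, h5⟩ := h4
          rw [eval_sub, eval_one, eval_mul, eval_C, eval_X, sub_eq_zero] at h5
          exact absurd (by field_simp at h5; exact h5.symm) (Finset.ne_of_mem_erase hb)
      · intro b _ hba
        rw [eval_mul, eval_prod]
        have : ∏ j ∈ s.erase b, eval a⁻¹ (1 - C j * X) = 0 := by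
          apply Finset.prod_eq_zero (i := a) (Finset.mem_erase.2 ⟨Ne.symm hba, ha⟩)
          rw [eval_sub, eval_one, eval_mul, eval_C, eval_X, mul_inv_cancel₀ ha0, sub_self]
        rw [this, mul_zero]
      · intro h; exact absurd ha h
    intro a ha
    by_cases ha0 : a = 0
    · subst ha0
      have h3 := congrArg (eval 0) key
      rw [eval_finsetSum, eval_zero, Finset.sum_eq_single 0] at h3
      · rw [eval_mul, eval_C, eval_prod, Finset.prod_eq_one, mul_one] at h3
        · exact h3
        · intro b _; simp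
      · intro b hb hb0
        rw [h2 b hb hb0]; simp
      · intro h; exact absurd ha h
    · exact h2 a ha ha0
  exact absurd hli.cardinal_lift_le_rank (not_le.2 hr)

/-- An algebraic element `x` is nilpotent if all `q(x)` with `q(0) ≠ 0` are invertible. -/
lemma isNilpotent_of_units (x : A) (hx : ∀ q : F[X], q.coeff 0 ≠ 0 → IsUnit (aeval x q))
    (ha : IsAlgebraic F x) : IsNilpotent x := by
  obtain ⟨p, hp, hp0⟩ := ha
  obtain ⟨q, hq, hnd⟩ := exists_eq_pow_rootMultiplicity_mul_and_not_dvd p hp 0
  rw [map_zero, sub_zero] at hq hnd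
  have hq0 : q.coeff 0 ≠ 0 := fun h => hnd (X_dvd_iff.2 h)
  refine ⟨rootMultiplicity 0 p, ?_⟩
  rw [hq, map_mul, map_pow, aeval_X] at hp0
  exact (hx q hq0).mul_left_eq_zero.1 hp0

/-- The idempotent in `x F[x]` defined by an algebraic element which is not nilpotent. -/
lemma exists_idempotent (x : A) (ha : IsAlgebraic F x) :
    ∃ e : F[X], e.coeff 0 = 0 ∧ IsIdempotentElem (aeval x e) ∧
      (aeval x e = 0 → IsNilpotent x) := by
  obtain ⟨p, hp, hp0⟩ := ha
  obtain ⟨q, hq, hnd⟩ := exists_eq_pow_rootMultiplicity_mul_and_not_dvd p hp 0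
  rw [map_zero, sub_zero] at hq hnd
  set m := rootMultiplicity 0 p with hm
  have hcop : IsCoprime (X ^ (m + 1) : F[X]) q := by
    apply IsCoprime.pow_left
    exact (prime_X.coprime_iff_not_dvd).2 hnd
  obtain ⟨a, b, hab⟩ := hcop
  have hz : aeval x (X ^ (m + 1) * q) = 0 := by
    rw [pow_succ', mul_assoc, ← hq, map_mul, hp0, mul_zero]
  refine ⟨a * X ^ (m + 1), by simp [pow_succ, ← mul_assoc], ?_, ?_⟩
  · rw [IsIdempotentElem, ← map_mul, ← sub_eq_zero, ← map_sub]
    have h1 : a * X ^ (m + 1) * (a * X ^ (m + 1)) - a * X ^ (m + 1) =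
        -(a * b) * (X ^ (m + 1) * q) := by
      have h2 : a * X ^ (m + 1) = 1 - b * q := by rw [← hab]; ring
      calc a * X ^ (m + 1) * (a * X ^ (m + 1)) - a * X ^ (m + 1)
          = a * X ^ (m + 1) * (a * X ^ (m + 1) - 1) := by ring
        _ = a * X ^ (m + 1) * (-(b * q)) := by rw [h2]; ring
        _ = _ := by ring
    rw [h1, map_mul, hz, mul_zero]
  · intro he
    refine ⟨m + 1, ?_⟩
    have h1 : aeval x (a * X ^ (m + 1) + b * q) = 1 := by rw [hab, map_one]
    rw [map_add, he, zero_add] at h1
    calc x ^ (m + 1) = aeval x (b * q) * x ^ (m + 1) := by rw [h1, one_mul]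
      _ = aeval x (b * (X ^ (m + 1) * q)) := by
          rw [show b * (X ^ (m + 1) * q) = b * q * X ^ (m + 1) by ring, map_mul (aeval x) (b * q),
            map_pow, aeval_X]
      _ = 0 := by rw [map_mul, hz, mul_zero]

end Pool.Agent.R911.Cv
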