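import Mathlib

set_option autoImplicit false

/-!
# Realisations of linear triangulated categories: definitions
-/

open CategoryTheory Limits Pretriangulated

namespace Pool.Agent.R911.Cv

universe w v u

/-- A realisation of an `F`-linear triangulated category `T`. The functor `H` is the zeroth
cohomology of the realisation, and `H^i(M) = H(M⟦i⟧)`. It is an `F`-linear homological functor, its
values are finite dimensional, and for each `M` only finitely many of the `H(M⟦i⟧)` are nonzero. -/
structure Realisation (F : Type w) [Field F] (T : Type u) [Category.{v} T] [Preadditive T]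
    [Linear F T] [HasZeroObject T] [HasShift T ℤ] [∀ n : ℤ, (shiftFunctor T n).Additive]
    [Pretriangulated T] where
  /-- the zeroth cohomology -/
  H : T ⥤ ModuleCat.{w} F
  [additive : H.Additive]
  [linear : H.Linear F]
  [homological : H.IsHomological]
  finite (M : T) : Module.Finite F (H.obj M)
  bounded (M : T) : ∃ N : ℕ, ∀ i : ℤ, N < i.natAbs → IsZero (H.obj (M⟦i⟧))

variable {F : Type w} [Field F] {T : Type u} [Category.{v} T] [Preadditive T]
  [Linear F T] [HasZeroObject T] [HasShift T ℤ] [∀ n : ℤ, (shiftFunctor T n).Additive]
  [Pretriangulated T] (R : Realisation F T)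

/-- The realisation of `f` is an isomorphism. -/
def Realisation.InvertsMap {M N : T} (f : M ⟶ N) : Prop := ∀ i : ℤ, IsIso (R.H.map (f⟦i⟧'))

/-- The realisation of `f` is zero. -/
def Realisation.KillsMap {M N : T} (f : M ⟶ N) : Prop := ∀ i : ℤ, R.H.map (f⟦i⟧') = 0

/-- The realisation is conservative. -/
def Realisation.IsConservative : Prop :=
  ∀ (M N : T) (f : M ⟶ N), R.InvertsMap f → IsIso f

/-- The endomorphisms with realisation zero are nilpotent. -/
def Realisation.HasNilpotence : Prop :=
  ∀ (M : T) (f : End M), R.KillsMap f → IsNilpotent f

/-- All endomorphisms are algebraic over the field of coefficients. -/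
def IsAlgebraicCat (F : Type w) [Field F] (T : Type u) [Category.{v} T] [Preadditive T]
    [Linear F T] : Prop :=
  ∀ (M : T) (f : End M), IsAlgebraic F f

/-- The only idempotent endomorphisms with realisation zero are the zero maps. -/
def Realisation.HasNoPhantoms : Prop :=
  ∀ (M : T) (e : End M), IsIdempotentElem e → R.KillsMap e → e = 0

/-- The dimensions of the algebras of endomorphisms are smaller than the cardinality of the field of
coefficients. -/
def HasSmallEnds (F : Type w) [Field F] (T : Type u) [Category.{v} T] [Preadditive T]
    [Linear F T] : Prop :=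
  ∀ M : T, Cardinal.lift.{w} (Module.rank F (End M)) < Cardinal.lift.{v} (Cardinal.mk F)

end Pool.Agent.R911.Cv
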