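import Pool.Agent.R911.Cv.Defs
import Pool.Agent.R911.Cv.Alg

set_option autoImplicit false
set_option linter.unusedSectionVars false

/-!
# Conservative realisations and nilpotence
-/

open CategoryTheory Limits Pretriangulated Polynomial

namespace Pool.Agent.R911.Cv

universe w v u v' u'

variable {F : Type w} [Field F]

section linear

variable {T : Type u} [Category.{v} T] [Preadditive T] [Linear F T]
  {D : Type u'} [Category.{v'} D] [Preadditive D] [Linear F D] (G : T ⥤ D) [G.Additive] [G.Linear F]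

lemma map_aeval_of_map_eq_zero {M : T} {f : End M} (hf : G.map f = 0) (q : F[X]) :
    G.map (aeval f q : End M) = q.coeff 0 • 𝟙 (G.obj M) := by
  have h1 : aeval f q = aeval f q.divX * f + algebraMap F (End M) (q.coeff 0) := by
    conv_lhs => rw [← divX_mul_X_add q]
    rw [map_add, map_mul, aeval_X, aeval_C]
  have h2 : (aeval f q : End M) = f ≫ (aeval f q.divX : End M) + q.coeff 0 • 𝟙 M := by
    rw [h1, Algebra.algebraMap_eq_smul_one]
    rfl
  rw [h2, G.map_add, G.map_comp, hf, Limits.zero_comp, zero_add, G.map_smul, G.map_id]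

end linear

variable {T : Type u} [Category.{v} T] [Preadditive T]
  [Linear F T] [HasZeroObject T] [HasShift T ℤ] [∀ n : ℤ, (shiftFunctor T n).Additive]
  [∀ n : ℤ, (shiftFunctor T n).Linear F] [Pretriangulated T] (R : Realisation F T)

instance : R.H.Additive := R.additive
instance : R.H.Linear F := R.linear
instance : R.H.IsHomological := R.homological

/-- The functor `H^i`. -/
noncomputable abbrev Realisation.Hi (i : ℤ) : T ⥤ ModuleCat.{w} F := shiftFunctor T i ⋙ R.H

variable {R}

lemma inverts_aeval {M : T} {f : End M} (hf : R.KillsMap f) {q : F[X]} (hq : q.coeff 0 ≠ 0) :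
    R.InvertsMap (aeval f q : End M) := by
  intro i
  have h1 : (R.Hi i).map (aeval f q : End M) = q.coeff 0 • 𝟙 _ :=
    map_aeval_of_map_eq_zero (R.Hi i) (hf i) q
  change IsIso ((R.Hi i).map (aeval f q : End M))
  rw [h1]
  refine ⟨(q.coeff 0)⁻¹ • 𝟙 _, ?_, ?_⟩ <;>
  · rw [Linear.smul_comp, Linear.comp_smul, smul_smul, Category.comp_id]
    first
    | rw [mul_inv_cancel₀ hq, one_smul]
    | rw [inv_mul_cancel₀ hq, one_smul]

lemma kills_aeval {M : T} {f : End M} (hf : R.KillsMap f) {q : F[X]} (hq : q.coeff 0 = 0) :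
    R.KillsMap (aeval f q : End M) := by
  intro i
  have h1 : (R.Hi i).map (aeval f q : End M) = q.coeff 0 • 𝟙 _ :=
    map_aeval_of_map_eq_zero (R.Hi i) (hf i) q
  rw [hq, zero_smul] at h1
  exact h1

/-- **Amitsur's argument.** -/
lemma nilpotence_of_conservative (hF : HasSmallEnds F T) (hR : R.IsConservative) :
    R.HasNilpotence := by
  intro M f hf
  have hx : ∀ q : F[X], q.coeff 0 ≠ 0 → IsUnit (aeval f q) := by
    intro q hq
    have := hR _ _ _ (inverts_aeval hf hq)
    exact (isUnit_iff_isIso (aeval f q : End M)).2 this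
  exact isNilpotent_of_units f hx (isAlgebraic_of_units f hx (hF M))

lemma nilpotence_of_algebraic (h1 : IsAlgebraicCat F T) (h2 : R.HasNoPhantoms) :
    R.HasNilpotence := by
  intro M f hf
  obtain ⟨e, he0, he, he2⟩ := exists_idempotent f (h1 M f)
  exact he2 (h2 M _ he (kills_aeval hf he0))

lemma noPhantoms_of_nilpotence (h : R.HasNilpotence) : R.HasNoPhantoms := by
  intro M e he hk
  obtain ⟨n, hn⟩ := h M e hk
  rcases Nat.eq_zero_or_pos n with rfl | hn0
  · rw [pow_zero] at hn
    rw [← mul_one e, hn, mul_zero]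
  · rwa [he.pow_eq hn0.ne'] at hn

lemma map_aeval_hom {D : Type u'} [Category.{v'} D] [Preadditive D] [Linear F D]
    (G : D ⥤ ModuleCat.{w} F) [G.Additive] [G.Linear F] {M : D} (f : End M) (q : F[X]) :
    (G.map (aeval f q : End M)).hom = aeval (G.map f).hom q := by
  induction q using Polynomial.induction_on' with
  | add p q hp hq =>
    rw [map_add, map_add, ← hp, ← hq]
    have : (aeval f p + aeval f q : End M) = ((aeval f p : End M) + (aeval f q : End M) : M ⟶ M) :=
      rfl
    rw [this, G.map_add]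
    rfl
  | monomial n c =>
    have hn : ∀ n : ℕ, (G.map (f ^ n : End M)).hom = (G.map f).hom ^ n := by
      intro n
      induction n with
      | zero =>
        rw [pow_zero, pow_zero]
        have : G.map (1 : End M) = 𝟙 _ := G.map_id M
        rw [this]; rfl
      | succ n ih =>
        rw [pow_succ, pow_succ, ← ih]
        have : G.map (f ^ n * f : End M) = G.map f ≫ G.map (f ^ n : End M) := G.map_comp _ _
        rw [this]; rfl
    rw [aeval_monomial, aeval_monomial, ← Algebra.smul_def, ← Algebra.smul_def, ← hn]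
    have : G.map (c • f ^ n : End M) = c • G.map (f ^ n : End M) := G.map_smul _ _
    rw [this]; rfl

lemma algebraic_of_nilpotence (h : R.HasNilpotence) : IsAlgebraicCat F T := by
  classical
  intro M f
  obtain ⟨N, hN⟩ := R.bounded M
  have hfin : ∀ i : ℤ, Module.Finite F (R.H.obj (M⟦i⟧)) := fun i => R.finite _
  -- a polynomial which annihilates the cohomology
  set P : F[X] := ∏ i ∈ Finset.Icc (-(N : ℤ)) N, minpoly F ((R.Hi i).map f).hom with hP
  have hint : ∀ i : ℤ, IsIntegral F ((R.Hi i).map f).hom := by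
    intro i
    have : Module.Finite F ((R.Hi i).obj M) := hfin i
    exact Algebra.IsIntegral.isIntegral (R := F) (A := Module.End F ((R.Hi i).obj M)) _
  have hP0 : P ≠ 0 := Finset.prod_ne_zero_iff.2 fun i _ => minpoly.ne_zero (hint i)
  have hkill : R.KillsMap (aeval f P : End M) := by
    intro i
    change (R.Hi i).map (aeval f P : End M) = 0
    by_cases hi : i ∈ Finset.Icc (-(N : ℤ)) N
    · apply ModuleCat.hom_ext
      rw [map_aeval_hom, hP, ← Finset.mul_prod_erase _ _ hi, map_mul, minpoly.aeval, zero_mul]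
      rfl
    · have hi' : N < i.natAbs := by
        rw [Finset.mem_Icc] at hi
        omega
      exact (hN i hi').eq_of_src _ _
  obtain ⟨n, hn⟩ := h M _ hkill
  exact ⟨P ^ n, pow_ne_zero n hP0, by rw [map_pow]; exact hn⟩

/-- The cohomology of the cone of a map which the realisation inverts is zero. -/
lemma isZero_of_inverts {X Y Z : T} {f : X ⟶ Y} {g : Y ⟶ Z} {h : Z ⟶ X⟦(1 : ℤ)⟧}
    (hT : Triangle.mk f g h ∈ distTriang T) (hf : R.InvertsMap f) (n : ℤ) :
    IsZero (R.H.obj (Z⟦n⟧)) := by
  have hfg : f ≫ g = 0 := comp_distTriang_mor_zero₁₂ _ hT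
  have hgh : h ≫ f⟦(1 : ℤ)⟧' = 0 := comp_distTriang_mor_zero₃₁ _ hT
  have e1 : R.H.map (g⟦n⟧') = 0 := by
    have := hf n
    rw [← cancel_epi (R.H.map (f⟦n⟧')), ← R.H.map_comp, ← Functor.map_comp, hfg,
      Functor.map_zero, Functor.map_zero, Limits.comp_zero]
  have hf1 : IsIso (R.H.map (f⟦(1 : ℤ)⟧'⟦n⟧')) := by
    have h1 := hf (1 + n)
    have h2 : f⟦(1 : ℤ)⟧'⟦n⟧' = (shiftAdd X 1 n).inv ≫ f⟦1 + n⟧' ≫ (shiftAdd Y 1 n).hom := by
      rw [shift_shift']
    rw [h2, R.H.map_comp, R.H.map_comp]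
    infer_instance
  have e2 : R.H.map (h⟦n⟧') = 0 := by
    rw [← cancel_mono (R.H.map (f⟦(1 : ℤ)⟧'⟦n⟧')), ← R.H.map_comp, ← Functor.map_comp, hgh,
      Functor.map_zero, Functor.map_zero, Limits.zero_comp]
  have hrot := rot_of_distTriang _ hT
  have hsh := Triangle.shift_distinguished _ hrot n
  have hex := R.H.map_distinguished_exact _ hsh
  refine hex.isZero_of_both_zeros ?_ ?_
  · change R.H.map (n.negOnePow • g⟦n⟧') = 0
    rw [Units.smul_def, Functor.map_zsmul, e1, smul_zero]
  · change R.H.map (n.negOnePow • h⟦n⟧') = 0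
    rw [Units.smul_def, Functor.map_zsmul, e2, smul_zero]

lemma conservative_of_noPhantoms (h : R.HasNoPhantoms) : R.IsConservative := by
  intro X Y f hf
  obtain ⟨Z, g, k, hT⟩ := distinguished_cocone_triangle f
  have h1 : (1 : End Z) = 0 := h Z 1 IsIdempotentElem.one fun i => by
    change (R.Hi i).map (𝟙 Z) = 0
    exact (isZero_of_inverts hT hf i).eq_of_src _ _
  have hZ : IsZero Z := (IsZero.iff_id_eq_zero Z).2 h1
  exact (Triangle.isZero₃_iff_isIso₁ _ hT).1 hZ

/-- **Conservativity and nilpotence.** -/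
theorem main (R : Realisation F T) :
    (R.HasNilpotence ↔ IsAlgebraicCat F T ∧ R.HasNoPhantoms) ∧
    (R.HasNilpotence → R.IsConservative) ∧
    (HasSmallEnds F T → (R.IsConservative ↔ R.HasNilpotence)) ∧
    (HasSmallEnds F T → R.IsConservative →
      ∀ (T₀ : Type u') [Category.{v'} T₀] [Preadditive T₀] (Φ : T₀ ⥤ T) [Φ.Additive] [Φ.Faithful]
        (M : T₀) (f : End M), R.KillsMap (Φ.map f) → IsNilpotent f) := by
  refine ⟨⟨fun h => ⟨algebraic_of_nilpotence h, noPhantoms_of_nilpotence h⟩,
    fun h => nilpotence_of_algebraic h.1 h.2⟩,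
    fun h => conservative_of_noPhantoms (noPhantoms_of_nilpotence h),
    fun hF => ⟨nilpotence_of_conservative hF,
      fun h => conservative_of_noPhantoms (noPhantoms_of_nilpotence h)⟩, ?_⟩
  intro hF hR T₀ _ _ Φ _ _ M f hf
  obtain ⟨n, hn⟩ := nilpotence_of_conservative hF hR (Φ.obj M) (Φ.mapEnd M f) hf
  refine ⟨n, ?_⟩
  apply Φ.map_injective
  rw [← map_pow (Φ.mapEnd M) f n] at hn
  rw [Φ.map_zero]
  exact hn

end Pool.Agent.R911.Cv
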