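import Pool.Agent.R911.Cv.Defs

set_option autoImplicit false

/-!
# Extension of the coefficients from `F` to `F(t)`
-/

open CategoryTheory Limits

namespace Pool.Agent.R911.Cv

universe w v u v' u'

section

variable {F : Type w} [Field F] {T : Type u} [Category.{v} T]
  {T' : Type u'} [Category.{v'} T'] [Preadditive T'] [Linear (RatFunc F) T']

/-- The map `∑ i < n, t ^ i f i` from `Φ M` to `Φ N`. -/
noncomputable def polyMap (Φ : T ⥤ T') {M N : T} (n : ℕ) (f : ℕ → (M ⟶ N)) : Φ.obj M ⟶ Φ.obj N :=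
  ∑ i ∈ Finset.range n, (RatFunc.X : RatFunc F) ^ i • Φ.map (f i)

end

/-- The functor `Φ` extends the coefficients from `F` to the field `F(t)` of rational functions, that
is, it is `F`-linear and `Hom(Φ M, Φ N)` is the tensor product over `F` of `F(t)` and `Hom(M, N)`:
each map from `Φ M` to `Φ N` is of the form `p(t)⁻¹ ∑ t ^ i Φ(f i)`, and `∑ t ^ i Φ(f i)` is zero
only if all `f i` are zero. -/
structure IsCoefficientExtension (F : Type w) [Field F] {T : Type u} [Category.{v} T]
    [Preadditive T] [Linear F T] {T' : Type u'} [Category.{v'} T'] [Preadditive T']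
    [Linear (RatFunc F) T'] (Φ : T ⥤ T') : Prop where
  map_add {M N : T} (f g : M ⟶ N) : Φ.map (f + g) = Φ.map f + Φ.map g
  map_smul {M N : T} (a : F) (f : M ⟶ N) :
    Φ.map (a • f) = algebraMap F (RatFunc F) a • Φ.map f
  exists_fraction (M N : T) (g : Φ.obj M ⟶ Φ.obj N) :
    ∃ (p : Polynomial F) (n : ℕ) (f : ℕ → (M ⟶ N)), p ≠ 0 ∧
      algebraMap (Polynomial F) (RatFunc F) p • g = polyMap (F := F) Φ n f
  eq_zero (M N : T) (n : ℕ) (f : ℕ → (M ⟶ N)) :
    polyMap (F := F) Φ n f = 0 → ∀ i, i < n → f i = 0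

end Pool.Agent.R911.Cv
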