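import Pool.Agent.R911.Cv.TDefs
import Pool.Agent.R911.Cv.Main

set_option autoImplicit false
set_option linter.unusedSectionVars false

/-!
# Conservativity with coefficients `F(t)` implies nilpotence with coefficients `F`
-/

open CategoryTheory Limits Pretriangulated Polynomial

namespace Pool.Agent.R911.Cv

universe w v u v' u' v'' u''

variable {F : Type w} [Field F] {T : Type u} [Category.{v} T] [Preadditive T] [Linear F T]
  {T' : Type u'} [Category.{v'} T'] [Preadditive T'] [Linear (RatFunc F) T'] {Φ : T ⥤ T'}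

namespace IsCoefficientExtension

variable (h : IsCoefficientExtension F Φ)

include h

lemma map_zero (M N : T) : Φ.map (0 : M ⟶ N) = 0 := by
  have h1 := h.map_smul (0 : F) (0 : M ⟶ N)
  rwa [zero_smul, RingHom.map_zero, zero_smul] at h1

lemma injective {M N : T} (f : M ⟶ N) (hf : Φ.map f = 0) : f = 0 := by
  refine h.eq_zero M N 1 (fun _ => f) ?_ 0 one_pos
  rw [polyMap, Finset.sum_range_one, pow_zero, one_smul, hf]

lemma map_sub {M N : T} (f g : M ⟶ N) : Φ.map (f - g) = Φ.map f - Φ.map g := by
  rw [eq_sub_iff_add_eq, ← h.map_add, sub_add_cancel]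

lemma algebraMap_smul {M N : T} (p : F[X]) (N₀ : ℕ) (hN : p.natDegree < N₀) (f : M ⟶ N) :
    algebraMap F[X] (RatFunc F) p • Φ.map f =
      polyMap (F := F) Φ N₀ fun i => p.coeff i • f := by
  conv_lhs => rw [p.as_sum_range' N₀ hN]
  rw [map_sum, Finset.sum_smul, polyMap]
  refine Finset.sum_congr rfl fun i _ => ?_
  rw [RatFunc.algebraMap_monomial, h.map_smul, smul_smul, mul_comm]
  rfl

/-- An endomorphism `u` such that `1 - t u` is invertible is algebraic. -/
lemma isAlgebraic_of_isIso {M : T} (u : End M)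
    (hu : IsIso (𝟙 (Φ.obj M) - (RatFunc.X : RatFunc F) • Φ.map (u : M ⟶ M))) :
    IsAlgebraic F u := by
  classical
  set g := 𝟙 (Φ.obj M) - (RatFunc.X : RatFunc F) • Φ.map (u : M ⟶ M) with hg
  obtain ⟨p, n, v, hp, hv⟩ := h.exists_fraction M M (inv g)
  set v' : ℕ → (M ⟶ M) := fun i => if i < n then v i else 0 with hv'
  set N := max n (p.natDegree + 1) with hN
  have e1 : algebraMap F[X] (RatFunc F) p • inv g = polyMap (F := F) Φ N v' := by
    rw [hv, polyMap, polyMap]
    have h1 : Finset.range n ⊆ Finset.range N := by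
      intro i hi
      rw [Finset.mem_range] at hi ⊢
      exact lt_of_lt_of_le hi (le_max_left _ _)
    rw [← Finset.sum_subset h1]
    · refine Finset.sum_congr rfl fun i hi => ?_
      have h2 : v' i = v i := if_pos (Finset.mem_range.1 hi)
      rw [h2]
    · intro i _ hi
      rw [hv']
      simp only
      rw [if_neg (fun h => hi (Finset.mem_range.2 h)), h.map_zero, smul_zero]
  -- the relation between the coefficients
  set s : ℕ → (M ⟶ M) := fun i => Nat.casesOn i 0 fun j => (u : M ⟶ M) ≫ v' j with hs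
  have e2 : polyMap (F := F) Φ (N + 1) s = (RatFunc.X : RatFunc F) • (Φ.map (u : M ⟶ M) ≫
      polyMap (F := F) Φ N v') := by
    rw [polyMap, Finset.sum_range_succ']
    have h0 : s 0 = 0 := rfl
    rw [h0, h.map_zero, smul_zero, add_zero, polyMap, Preadditive.comp_sum, Finset.smul_sum]
    refine Finset.sum_congr rfl fun i _ => ?_
    have h1 : s (i + 1) = (u : M ⟶ M) ≫ v' i := rfl
    rw [h1, Φ.map_comp, Linear.comp_smul, smul_smul, pow_succ']
  have e3 : polyMap (F := F) Φ (N + 1) v' = polyMap (F := F) Φ N v' := by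
    rw [polyMap, Finset.sum_range_succ, polyMap]
    have h1 : v' N = 0 := by
      rw [hv']
      simp only
      rw [if_neg (not_lt.2 (le_max_left _ _))]
    rw [h1, h.map_zero, smul_zero, add_zero]
  have e4 : polyMap (F := F) Φ (N + 1) (fun i => v' i - s i - p.coeff i • 𝟙 M) = 0 := by
    have h1 : polyMap (F := F) Φ (N + 1) (fun i => v' i - s i - p.coeff i • 𝟙 M) =
        polyMap (F := F) Φ (N + 1) v' - polyMap (F := F) Φ (N + 1) s -
          polyMap (F := F) Φ (N + 1) (fun i => p.coeff i • 𝟙 M) := by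
      simp only [polyMap]
      rw [← Finset.sum_sub_distrib, ← Finset.sum_sub_distrib]
      refine Finset.sum_congr rfl fun i _ => ?_
      rw [h.map_sub, h.map_sub, smul_sub, smul_sub]
    have h2 : p.natDegree < N + 1 := by
      have := le_max_right n (p.natDegree + 1)
      omega
    rw [h1, e2, e3, ← h.algebraMap_smul p (N + 1) h2, ← e1, Φ.map_id]
    have h3 : ∀ w : Φ.obj M ⟶ Φ.obj M, g ≫ w = 𝟙 _ →
        w - (RatFunc.X : RatFunc F) • (Φ.map (u : M ⟶ M) ≫ w) = 𝟙 _ := by
      intro w hw
      rw [← hw, hg, Preadditive.sub_comp, Category.id_comp, Linear.smul_comp]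
    have h4 := h3 _ (IsIso.hom_inv_id g)
    rw [Linear.comp_smul, smul_comm (RatFunc.X : RatFunc F), ← smul_sub, h4, sub_self]
  have key := h.eq_zero M M (N + 1) _ e4
  -- the coefficients are polynomials in `u`
  have key2 : ∀ i, i < N + 1 → v' i = (aeval u (∑ j ∈ Finset.range (i + 1),
      monomial (i - j) (p.coeff j)) : End M) := by
    intro i
    induction i with
    | zero =>
      intro hi
      have h1 := key 0 hi
      have h0 : s 0 = 0 := rfl
      simp only [h0, sub_zero] at h1
      rw [sub_eq_zero.1 h1]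
      simp only [zero_add, Finset.sum_range_one, Nat.sub_self]
      rw [aeval_monomial, pow_zero, mul_one, Algebra.algebraMap_eq_smul_one]
      rfl
    | succ i ih =>
      intro hi
      have h1 := key (i + 1) hi
      have h0 : s (i + 1) = (u : M ⟶ M) ≫ v' i := rfl
      simp only [h0] at h1
      have h2 : v' (i + 1) = p.coeff (i + 1) • 𝟙 M + (u : M ⟶ M) ≫ v' i := by
        have := sub_eq_zero.1 h1
        rw [sub_eq_iff_eq_add] at this
        exact this
      rw [h2, ih (by omega), Finset.sum_range_succ _ (i + 1), _root_.map_add, Nat.sub_self, add_comm]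
      have h3 : (∑ j ∈ Finset.range (i + 1), monomial (i + 1 - j) (p.coeff j) : F[X]) =
          (∑ j ∈ Finset.range (i + 1), monomial (i - j) (p.coeff j)) * X := by
        rw [Finset.sum_mul]
        refine Finset.sum_congr rfl fun j hj => ?_
        have hj' := Finset.mem_range.1 hj
        rw [monomial_mul_X, show i + 1 - j = i - j + 1 by omega]
      rw [h3, map_mul, aeval_X]
      have h4 : (aeval u (monomial 0 (p.coeff (i + 1))) : End M) = p.coeff (i + 1) • 𝟙 M := by
        rw [aeval_monomial, pow_zero, mul_one, Algebra.algebraMap_eq_smul_one]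
        rfl
      rw [h4]
      rfl
  have key3 := key2 N (by omega)
  have hvN : v' N = 0 := by
    rw [hv']
    simp only
    rw [if_neg (not_lt.2 (le_max_left _ _))]
  rw [hvN] at key3
  refine ⟨_, ?_, key3.symm⟩
  intro h0
  apply hp
  ext j
  rw [coeff_zero]
  by_cases hj : j < N + 1
  · have h1 := congrArg (fun q => coeff q (N - j)) h0
    simp only [finsetSum_coeff, coeff_monomial, coeff_zero] at h1
    rw [Finset.sum_eq_single j] at h1
    · rwa [if_pos rfl] at h1
    · intro i hi hij
      rw [if_neg]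
      have := Finset.mem_range.1 hi
      omega
    · intro h2
      exact absurd (Finset.mem_range.2 hj) h2
  · apply coeff_eq_zero_of_natDegree_lt
    have := le_max_right n (p.natDegree + 1)
    omega

end IsCoefficientExtension

section

variable (hΦ : IsCoefficientExtension F Φ)

include hΦ

/-- An endomorphism `u` such that `1 - t u` and all `q(u)` with `q(0) ≠ 0` become invertible is
nilpotent. -/
lemma isNilpotent_of_isIso {M : T} (u : End M)
    (h1 : IsIso (𝟙 (Φ.obj M) - (RatFunc.X : RatFunc F) • Φ.map (u : M ⟶ M)))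
    (h2 : ∀ q : F[X], q.coeff 0 ≠ 0 → IsIso (Φ.map (aeval u q : End M))) : IsNilpotent u := by
  obtain ⟨p, hp, hp0⟩ := hΦ.isAlgebraic_of_isIso u h1
  obtain ⟨q, hq, hnd⟩ := exists_eq_pow_rootMultiplicity_mul_and_not_dvd p hp 0
  rw [_root_.map_zero, sub_zero] at hq hnd
  have hq0 : q.coeff 0 ≠ 0 := fun h => hnd (X_dvd_iff.2 h)
  refine ⟨rootMultiplicity 0 p, ?_⟩
  rw [hq, mul_comm, map_mul, map_pow, aeval_X] at hp0
  have h3 : (u ^ rootMultiplicity 0 p : End M) ≫ (aeval u q : End M) = (0 : M ⟶ M) := hp0
  have h4 := h2 q hq0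
  apply hΦ.injective
  have h5 : Φ.map (u ^ rootMultiplicity 0 p : End M) ≫ Φ.map (aeval u q : End M) = 0 := by
    rw [← Φ.map_comp, h3, hΦ.map_zero]
  rw [← cancel_mono (Φ.map (aeval u q : End M)), h5, Limits.zero_comp]

/-- **General form.** A family of functors on the category with coefficients `F(t)` which reflects
isomorphisms kills only nilpotent endomorphisms of the category with coefficients `F`. -/
theorem isNilpotent_of_reflects {D : Type u''} [Category.{v''} D] [Preadditive D]
    [Linear (RatFunc F) D] {ι : Type*} (G : ι → T' ⥤ D) [∀ i, (G i).Additive]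
    [∀ i, (G i).Linear (RatFunc F)]
    (hG : ∀ (A B : T') (f : A ⟶ B), (∀ i, IsIso ((G i).map f)) → IsIso f)
    {M : T} (u : End M) (hu : ∀ i, (G i).map (Φ.map (u : M ⟶ M)) = 0) :
    IsNilpotent u := by
  apply isNilpotent_of_isIso hΦ u
  · refine hG _ _ _ fun i => ?_
    rw [(G i).map_sub, (G i).map_smul, hu, smul_zero, sub_zero, (G i).map_id]
    infer_instance
  · intro q hq
    have h1 : (aeval u q : End M) = (u : M ⟶ M) ≫ (aeval u q.divX : End M) + q.coeff 0 • 𝟙 M := by
      have h2 : aeval u q = aeval u q.divX * u + algebraMap F (End M) (q.coeff 0) := by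
        conv_lhs => rw [← divX_mul_X_add q]
        rw [map_add, map_mul, aeval_X, aeval_C]
      rw [h2, Algebra.algebraMap_eq_smul_one]
      rfl
    have hq' : algebraMap F (RatFunc F) (q.coeff 0) ≠ 0 := by
      rwa [Ne, _root_.map_eq_zero]
    refine hG _ _ _ fun i => ?_
    rw [h1, hΦ.map_add, Φ.map_comp, hΦ.map_smul, (G i).map_add, (G i).map_comp, hu,
      Limits.zero_comp, zero_add, (G i).map_smul, Φ.map_id, (G i).map_id]
    refine ⟨(algebraMap F (RatFunc F) (q.coeff 0))⁻¹ • 𝟙 _, ?_, ?_⟩ <;>
    · rw [Linear.smul_comp, Linear.comp_smul, smul_smul, Category.comp_id]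
      first
      | rw [mul_inv_cancel₀ hq', one_smul]
      | rw [inv_mul_cancel₀ hq', one_smul]

end

section

variable [HasZeroObject T] [HasShift T ℤ] [∀ n : ℤ, (shiftFunctor T n).Additive]
  [∀ n : ℤ, (shiftFunctor T n).Linear F] [Pretriangulated T]
  [HasZeroObject T'] [HasShift T' ℤ] [∀ n : ℤ, (shiftFunctor T' n).Additive]
  [∀ n : ℤ, (shiftFunctor T' n).Linear (RatFunc F)] [Pretriangulated T']

/-- **Coefficients `F(t)`.** -/
theorem tmain (hΦ : IsCoefficientExtension F Φ) (R : Realisation F T)
    (R' : Realisation (RatFunc F) T')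
    (hR : ∀ (M : T) (f : M ⟶ M), R.KillsMap f → R'.KillsMap (Φ.map f)) :
    (R'.IsConservative → R.HasNilpotence) ∧ (R.HasNilpotence → R.IsConservative) := by
  refine ⟨fun hc M u hu => ?_,
    fun h => conservative_of_noPhantoms (noPhantoms_of_nilpotence h)⟩
  exact isNilpotent_of_reflects hΦ (fun i => R'.Hi i) (fun A B f hf => hc A B f fun i => hf i) u
    fun i => hR M u hu i

end

end Pool.Agent.R911.Cv
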